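import Mathlib

/-!
# Right-angled Coxeter groups: the root model

`ι` is the finite set of letters, `adj` the (symmetric, irreflexive) relation `the letters
commute and are different`.  The group is generated by explicit reflections of `ι → ℤ`.
`x⁻¹ • β ≥ 0` means that the chamber `x` is on the positive side of the root `β`.
-/

set_option autoImplicit false

namespace MP8a95ee.RG

variable {ι : Type} [Fintype ι] [DecidableEq ι]

open Classical in
/-- the letters which are different from `b` and do not commute with `b` -/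
noncomputable def nb (adj : ι → ι → Prop) (b : ι) : Finset ι :=
  Finset.univ.filter fun c => c ≠ b ∧ ¬ adj b c

/-- the simple root `e a` -/
def e (a : ι) : ι → ℤ := fun i => if i = a then 1 else 0

/-- sum of the coordinates over the letters which do not commute with `b` -/
noncomputable def S (adj : ι → ι → Prop) (b : ι) (v : ι → ℤ) : ℤ := ∑ c ∈ nb adj b, v c

/-- the bilinear form: `1` on the diagonal, `0` on commuting pairs, `-1` on the other pairs -/
noncomputable def B (adj : ι → ι → Prop) (v w : ι → ℤ) : ℤ := ∑ a, v a * (w a - S adj a w)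

theorem mem_nb (adj : ι → ι → Prop) (b c : ι) : c ∈ nb adj b ↔ c ≠ b ∧ ¬ adj b c := by
  classical
  simp [nb]

theorem S_add (adj : ι → ι → Prop) (b : ι) (v w : ι → ℤ) :
    S adj b (v + w) = S adj b v + S adj b w := by
  simp [S, Finset.sum_add_distrib]

theorem S_smul (adj : ι → ι → Prop) (b : ι) (m : ℤ) (v : ι → ℤ) :
    S adj b (m • v) = m * S adj b v := by
  simp [S, Finset.mul_sum]

theorem S_e_self (adj : ι → ι → Prop) (b : ι) : S adj b (e b) = 0 := by
  unfold S
  refine Finset.sum_eq_zero fun c hc => ?_
  have h : c ≠ b := ((mem_nb adj b c).1 hc).1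
  simp [e, h]

/-- the reflection of the letter `b`: `v - 2 (v b - S b v) e b` -/
noncomputable def Rlin (adj : ι → ι → Prop) (b : ι) : (ι → ℤ) →ₗ[ℤ] (ι → ℤ) where
  toFun v := v - (2 * (v b - S adj b v)) • e b
  map_add' v w := by
    rw [S_add]
    funext i
    simp only [Pi.sub_apply, Pi.add_apply, Pi.smul_apply, smul_eq_mul]
    ring
  map_smul' m v := by
    rw [S_smul]
    funext i
    simp only [Pi.sub_apply, Pi.smul_apply, smul_eq_mul, RingHom.id_apply]
    ring

theorem Rlin_apply (adj : ι → ι → Prop) (b : ι) (v : ι → ℤ) :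
    Rlin adj b v = v - (2 * (v b - S adj b v)) • e b := rfl

theorem Rlin_involutive (adj : ι → ι → Prop) (b : ι) : Function.Involutive (Rlin adj b) := by
  intro v
  have h1 : (e b : ι → ℤ) b = 1 := by simp [e]
  have h2 : S adj b (Rlin adj b v) = S adj b v := by
    rw [Rlin_apply, sub_eq_add_neg, S_add, ← neg_smul, S_smul, S_e_self]
    ring
  have h3 : Rlin adj b v b = v b - 2 * (v b - S adj b v) := by
    rw [Rlin_apply]
    simp only [Pi.sub_apply, Pi.smul_apply, smul_eq_mul, h1]
    ring
  rw [Rlin_apply adj b (Rlin adj b v), h2, h3]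
  rw [Rlin_apply]
  funext i
  simp only [Pi.sub_apply, Pi.smul_apply, smul_eq_mul]
  ring

/-- the reflection of the letter `b` as a linear automorphism -/
noncomputable def R (adj : ι → ι → Prop) (b : ι) : (ι → ℤ) ≃ₗ[ℤ] (ι → ℤ) :=
  LinearEquiv.ofInvolutive (Rlin adj b) (Rlin_involutive adj b)

/-- the right-angled Coxeter group -/
noncomputable def Wsub (adj : ι → ι → Prop) : Subgroup ((ι → ℤ) ≃ₗ[ℤ] (ι → ℤ)) :=
  Subgroup.closure (Set.range (R adj))

/-- the right-angled Coxeter group -/
abbrev W (adj : ι → ι → Prop) : Type := ↥(Wsub adj)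

/-- the generators -/
noncomputable def r (adj : ι → ι → Prop) (b : ι) : W adj :=
  ⟨R adj b, Subgroup.subset_closure ⟨b, rfl⟩⟩

/-- `β` is a root with label `a` -/
def IsRoot (adj : ι → ι → Prop) (a : ι) (β : ι → ℤ) : Prop := ∃ w : W adj, β = w • (e a : ι → ℤ)

/-- the chamber `x` is on the positive side of `β` -/
def Pos {adj : ι → ι → Prop} (x : W adj) (β : ι → ℤ) : Prop := 0 ≤ x⁻¹ • β

/-- the chamber `x` is on the negative side of `β` -/
def Neg {adj : ι → ι → Prop} (x : W adj) (β : ι → ℤ) : Prop := x⁻¹ • β ≤ 0

open Classical in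
/-- the set of first letters of `g` -/
noncomputable def In {adj : ι → ι → Prop} (g : W adj) : Finset ι :=
  Finset.univ.filter fun a => Neg g (e a)

/-- product of the generators of the letters of a list -/
noncomputable def word (adj : ι → ι → Prop) (l : List ι) : W adj := (l.map (r adj)).prod

end MP8a95ee.RG
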