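import Pool.Agent.Work.MP_8a95ee_gt.RG.Defs

/-!
# Right-angled Coxeter groups: the facts on chambers and roots which are used
-/

set_option autoImplicit false

namespace MP8a95ee.RG

/-- hypotheses on the relation -/
structure IsAdj {ι : Type} (adj : ι → ι → Prop) : Prop where
  symm : ∀ a b, adj a b → adj b a
  irrefl : ∀ a, ¬ adj a a

/-- All facts on chambers and roots.  `Pos x β`: the chamber `x` is on the positive side of the
root `β`.  The wall between `x` and `x * r s` is the root `x • e s`, and `x` is on its positive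
side.  `a ∈ In (x⁻¹ * v) ↔ Neg v (x • e a)`. -/
structure Geo {ι : Type} [Fintype ι] [DecidableEq ι] (adj : ι → ι → Prop) : Prop where
  /-- every chamber is on exactly one side -/
  pos_or_neg : ∀ (a : ι) (β : ι → ℤ) (x : W adj), IsRoot adj a β → Pos x β ∨ Neg x β
  not_both : ∀ (a : ι) (β : ι → ℤ) (x : W adj), IsRoot adj a β → ¬ (Pos x β ∧ Neg x β)
  /-- labels -/
  root_e : ∀ (x : W adj) (a : ι), IsRoot adj a (x • e a)
  pos_e : ∀ (x : W adj) (a : ι), Pos x (x • e a)
  root_neg : ∀ (a : ι) (β : ι → ℤ), IsRoot adj a β → IsRoot adj a (-β)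
  pos_neg : ∀ (β : ι → ℤ) (x : W adj), Pos x (-β) ↔ Neg x β
  neg_neg : ∀ (β : ι → ℤ) (x : W adj), Neg x (-β) ↔ Pos x β
  label_unique : ∀ (a b : ι) (β : ι → ℤ), IsRoot adj a β → IsRoot adj b β → a = b
  mem_In : ∀ (x v : W adj) (a : ι), a ∈ In (x⁻¹ * v) ↔ Neg v (x • e a)
  /-- walls whose labels are equal or do not commute do not cross -/
  nocross : ∀ (a c : ι) (β γ : ι → ℤ), IsRoot adj a β → IsRoot adj c γ → (a = c ∨ ¬ adj a c) →
    (∀ x v : W adj, ¬ (Pos x β ∧ Pos x γ ∧ Neg v β ∧ Neg v γ)) ∨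
    (∀ x v : W adj, ¬ (Pos x β ∧ Neg x γ ∧ Neg v β ∧ Pos v γ))
  /-- the same if one of the walls is next to `x`, and `x` is on the positive side of both -/
  next_wall : ∀ (x : W adj) (s c : ι) (γ : ι → ℤ), IsRoot adj c γ → Pos x γ →
    (s = c ∨ ¬ adj s c) → γ ≠ x • e s →
    (∀ v : W adj, ¬ (Neg v γ ∧ Neg v (x • e s))) ∨ (∀ v : W adj, Neg v γ → Neg v (x • e s))
  /-- every far half-space is contained in a far half-space next to `x` -/
  hull : ∀ (x : W adj) (a : ι) (β : ι → ℤ), IsRoot adj a β → Pos x β →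
    ∃ b : ι, ∀ v : W adj, Neg v β → Neg v (x • e b)
  /-- first letters commute -/
  clique : ∀ (g : W adj) (a b : ι), a ∈ In g → b ∈ In g → a ≠ b → adj a b
  /-- different chambers are separated by a wall next to the first one -/
  exists_sep : ∀ x y : W adj, x ≠ y → ∃ a : ι, Neg y (x • e a)
  /-- the step from `x` to `x * r s` crosses only one wall -/
  cross_step : ∀ (x : W adj) (s : ι), Neg (x * r adj s) (x • e s)
  step : ∀ (x : W adj) (s c : ι) (γ : ι → ℤ), IsRoot adj c γ → Pos x γ → γ ≠ x • e s →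
    Pos (x * r adj s) γ
  /-- if the labels of the walls between `x` and `y` in `A` commute with those not in `A`, then
  one of the walls next to `x` between `x` and `y` has a label in `A` -/
  first_letter : ∀ (x y : W adj) (A : Set ι),
    (∀ (c c' : ι) (γ γ' : ι → ℤ), IsRoot adj c γ → Pos x γ → Neg y γ → IsRoot adj c' γ' →
      Pos x γ' → Neg y γ' → c ∈ A → c' ∉ A → adj c c') →
    (∃ (c : ι) (γ : ι → ℤ), c ∈ A ∧ IsRoot adj c γ ∧ Pos x γ ∧ Neg y γ) →
    ∃ a ∈ A, Neg y (x • e a)
  /-- relations -/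
  r_sq : ∀ a : ι, r adj a * r adj a = 1
  r_comm : ∀ a b : ι, adj a b → r adj a * r adj b = r adj b * r adj a
  /-- the sign -/
  sign : ∃ χ : W adj →* ℤˣ, ∀ a : ι, χ (r adj a) = -1
  /-- residues of a finite parabolic subgroup: `s` an injective list of pairwise commuting letters;
  a chamber is in the residue, or one of the walls next to it separates it from the residue -/
  residue : ∀ (l : List ι), l.Pairwise adj → ∀ x : W adj,
    (∃ m : List ι, m.Sublist l ∧ x = word adj m) ∨
    (∃ a : ι, ∀ m : List ι, (∀ i ∈ m, i ∈ l) → Neg (word adj m) (x • e a))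
  /-- first letters of a product of commuting letters -/
  In_word : ∀ (m : List ι), m.Pairwise adj → ∀ a : ι, a ∈ In (word adj m) ↔ a ∈ m

/-- The theorem. -/
def claimGeo : Prop := ∀ (ι : Type) [Fintype ι] [DecidableEq ι] (adj : ι → ι → Prop),
  IsAdj adj → Geo adj

end MP8a95ee.RG
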